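import Pool.Agent.helper76.MC.Defs

/-! # Project MC: module B1 (constructions of congruence representations) -/

namespace Pool.Agent.helper76.MC

open Finset Pool.Agent.helper34.DH Pool.Agent.helper76.FV Pool.Agent.helper76.LP
open Pool.Agent.helper76.UR
open Matrix (SpecialLinearGroup)

theorem B1_ez_coe (r : ℚ) :
    ez ((r : ℚ) : QZ) = Complex.exp (2 * Real.pi * Complex.I * (r : ℂ)) := rfl

theorem B1_ez_zero : ez 0 = 1 := by
  have h := B1_ez_coe 0
  rw [show (((0 : ℚ) : ℚ) : QZ) = 0 from rfl] at h
  rw [h]
  simp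

theorem B1_ez_add (x y : QZ) : ez (x + y) = ez x * ez y := by
  induction x using QuotientAddGroup.induction_on with
  | H a =>
    induction y using QuotientAddGroup.induction_on with
    | H b =>
      have h : ((a : ℚ) : QZ) + ((b : ℚ) : QZ) = (((a + b : ℚ)) : QZ) := rfl
      change ez (((a : ℚ) : QZ) + ((b : ℚ) : QZ)) = _
      rw [h, B1_ez_coe]
      rw [B1_ez_coe, B1_ez_coe, ← Complex.exp_add]
      congr 1
      push_cast
      ring

theorem B1_tens_mult {m n : ℕ} (x : Fin m → QZ) (y : Fin n → QZ) :
    ((Finset.univ : Finset (Fin m)).val.map x).bind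
        (fun a => ((Finset.univ : Finset (Fin n)).val.map y).map fun b => a + b) =
      (Finset.univ : Finset (Fin (m * n))).val.map
        (fun k => x (finProdFinEquiv.symm k).1 + y (finProdFinEquiv.symm k).2) := by
  have h1 : (Finset.univ : Finset (Fin (m * n))).val.map
        (fun k => x (finProdFinEquiv.symm k).1 + y (finProdFinEquiv.symm k).2) =
      (Finset.univ : Finset (Fin m × Fin n)).val.map (fun q => x q.1 + y q.2) := by
    rw [← Finset.map_univ_equiv (finProdFinEquiv (m := m) (n := n)), Finset.map_val,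
      Multiset.map_map]
    apply Multiset.map_congr rfl
    intro q _
    change x (finProdFinEquiv.symm (finProdFinEquiv q)).1 +
      y (finProdFinEquiv.symm (finProdFinEquiv q)).2 = _
    rw [Equiv.symm_apply_apply]
  rw [h1, ← Finset.univ_product_univ, Finset.product_val]
  rw [Multiset.bind_map]
  change _ = Multiset.map (fun q => x q.1 + y q.2)
    (((Finset.univ : Finset (Fin m)).val).bind fun a =>
      ((Finset.univ : Finset (Fin n)).val).map (Prod.mk a))
  rw [Multiset.map_bind]
  apply Multiset.bind_congr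
  intro a _
  rw [Multiset.map_map, Multiset.map_map]
  rfl

/-- tensor products -/
theorem congRep_tensor {N : ℕ} {σ τ : ℂ} {s t : Multiset QZ} (h1 : CongRep N σ s)
    (h2 : CongRep N τ t) :
    CongRep N (σ * τ) (s.bind fun x => t.map fun y => x + y) := by
  obtain ⟨V, iV, jV, ϱ, hσ, m, b, x, hx, rfl⟩ := h1
  obtain ⟨W, iW, jW, ϱ', hτ, n, c, y, hy, rfl⟩ := h2
  refine ⟨TensorProduct ℂ V W, inferInstance, inferInstance, ϱ.tprod ϱ', ?_, m * n,
    (b.tensorProduct c).reindex finProdFinEquiv,
    fun k => x (finProdFinEquiv.symm k).1 + y (finProdFinEquiv.symm k).2, ?_, ?_⟩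
  · rw [Representation.tprod_apply, hσ, hτ]
    apply TensorProduct.ext'
    intro v w
    rw [TensorProduct.map_tmul]
    simp only [LinearMap.smul_apply, Module.End.one_apply]
    rw [TensorProduct.smul_tmul_smul]
  · intro k
    rw [Module.Basis.reindex_apply, Representation.tprod_apply]
    set q := finProdFinEquiv.symm k with hq
    rw [Module.Basis.tensorProduct_apply', TensorProduct.map_tmul, hx, hy, B1_ez_add,
      TensorProduct.smul_tmul_smul]
  · exact B1_tens_mult x y

/-- inflation -/
theorem congRep_infl {N M : ℕ} (h : N ∣ M) {σ : ℂ} {s : Multiset QZ} (h1 : CongRep N σ s) :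
    CongRep M σ s := by
  obtain ⟨V, iV, jV, ϱ, hσ, hs⟩ := h1
  refine ⟨V, iV, jV, MonoidHom.comp ϱ (SpecialLinearGroup.map (ZMod.castHom h (ZMod N))), ?_, ?_⟩
  · have h0 : SpecialLinearGroup.map (ZMod.castHom h (ZMod N))
        (-1 : SpecialLinearGroup (Fin 2) (ZMod M)) = -1 := by
      ext i j
      simp only [SpecialLinearGroup.map_apply_coe, SpecialLinearGroup.coe_neg,
        RingHom.mapMatrix_apply, Matrix.map_apply, Matrix.neg_apply, map_neg]
      congr 1
      change ZMod.castHom h (ZMod N) ((1 : Matrix (Fin 2) (Fin 2) (ZMod M)) i j) =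
        (1 : Matrix (Fin 2) (Fin 2) (ZMod N)) i j
      rw [Matrix.one_apply, Matrix.one_apply]
      by_cases hij : i = j
      · rw [if_pos hij, if_pos hij, map_one]
      · rw [if_neg hij, if_neg hij, map_zero]
    rw [MonoidHom.comp_apply, h0, hσ]
  · have h0 : SpecialLinearGroup.map (ZMod.castHom h (ZMod N)) (mT M) = mT N := by
      ext i j
      simp only [SpecialLinearGroup.map_apply_coe, RingHom.mapMatrix_apply, Matrix.map_apply, mT]
      fin_cases i <;> fin_cases j
      · exact map_one (ZMod.castHom h (ZMod N))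
      · exact map_one (ZMod.castHom h (ZMod N))
      · exact map_zero (ZMod.castHom h (ZMod N))
      · exact map_one (ZMod.castHom h (ZMod N))
    rw [MonoidHom.comp_apply, h0]
    exact hs

/-- the trivial representation -/
theorem congRep_zero (N : ℕ) : CongRep N 1 {0} := by
  refine ⟨ℂ, inferInstance, inferInstance, 1, ?_, 1, Module.Basis.singleton (Fin 1) ℂ,
    fun _ => 0, ?_, ?_⟩
  · rw [MonoidHom.one_apply, one_smul]
  · intro i
    rw [MonoidHom.one_apply, B1_ez_zero, one_smul, Module.End.one_apply]
  · simp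

end Pool.Agent.helper76.MC
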