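import Pool.Agent.helper76.MC.Defs
import Pool.Agent.helper25.MC.B1

/-! # Project MC: module B2 (sums and duals of congruence multisets) -/

namespace Pool.Agent.helper76.MC

open Finset Pool.Agent.helper34.DH Pool.Agent.helper76.FV Pool.Agent.helper76.LP
open Pool.Agent.helper76.UR
open Matrix (SpecialLinearGroup)

theorem B2_ez_eq_one {x : QZ} (h : ez x = 1) : x = 0 := by
  induction x using QuotientAddGroup.induction_on with
  | H a =>
    change ez ((a : ℚ) : QZ) = 1 at h
    rw [B1_ez_coe, Complex.exp_eq_one_iff] at h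
    obtain ⟨n, hn⟩ := h
    have h2 : (2 * (Real.pi : ℂ) * Complex.I) ≠ 0 := by
      simp [Real.pi_ne_zero]
    have h3 : (a : ℂ) = (n : ℂ) := by
      apply mul_left_cancel₀ h2
      rw [hn]
      ring
    have h4 : a = (n : ℚ) := by exact_mod_cast h3
    change ((a : ℚ) : QZ) = 0
    rw [AddCircle.coe_eq_zero_iff]
    exact ⟨n, by rw [h4]; simp⟩

theorem B2_ez_mul_neg (x : QZ) : ez x * ez (-x) = 1 := by
  rw [← B1_ez_add, add_neg_cancel, B1_ez_zero]

theorem B2_ez_sum {n : ℕ} (x : Fin n → QZ) : ez (∑ i, x i) = ∏ i, ez (x i) := by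
  classical
  induction (Finset.univ : Finset (Fin n)) using Finset.induction_on with
  | empty => simpa using B1_ez_zero
  | insert a s ha ih => rw [Finset.sum_insert ha, Finset.prod_insert ha, B1_ez_add, ih]

theorem B2_det {V : Type} [AddCommGroup V] [Module ℂ V] (A : V →ₗ[ℂ] V) (s : Multiset QZ)
    (h : Exps A s) : LinearMap.det A = ez s.sum := by
  classical
  obtain ⟨n, b, x, hx, rfl⟩ := h
  rw [← LinearMap.det_toMatrix b]
  have h1 : LinearMap.toMatrix b b A = Matrix.diagonal fun i => ez (x i) := by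
    ext i j
    rw [LinearMap.toMatrix_apply, hx, Matrix.diagonal_apply]
    simp only [map_smul, Module.Basis.repr_self, Finsupp.smul_single, smul_eq_mul, mul_one]
    rw [Finsupp.single_apply]
    by_cases hij : i = j
    · rw [if_pos hij, if_pos hij.symm, hij]
    · rw [if_neg hij, if_neg (fun h => hij h.symm)]
  rw [h1, Matrix.det_diagonal, ← B2_ez_sum]
  rfl

theorem B2_prod {V W : Type} [AddCommGroup V] [Module ℂ V] [AddCommGroup W] [Module ℂ W]
    (A : V →ₗ[ℂ] V) (B : W →ₗ[ℂ] W) (s t : Multiset QZ) (hs : Exps A s) (ht : Exps B t) :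
    Exps (A.prodMap B) (s + t) := by
  obtain ⟨m, b, x, hx, rfl⟩ := hs
  obtain ⟨n, c, y, hy, rfl⟩ := ht
  refine ⟨m + n, (b.prod c).reindex finSumFinEquiv,
    fun k => Sum.elim x y (finSumFinEquiv.symm k), ?_, ?_⟩
  · intro k
    rw [Module.Basis.reindex_apply]
    change (A.prodMap B) ((b.prod c) (finSumFinEquiv.symm k)) =
      ez (Sum.elim x y (finSumFinEquiv.symm k)) • (b.prod c) (finSumFinEquiv.symm k)
    rcases finSumFinEquiv.symm k with i | j
    · rw [Sum.elim_inl]
      have h1 : (b.prod c) (Sum.inl i) = (b i, 0) := by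
        ext <;> simp
      rw [h1, LinearMap.prodMap_apply, hx, map_zero, Prod.smul_mk, smul_zero]
    · rw [Sum.elim_inr]
      have h1 : (b.prod c) (Sum.inr j) = (0, c j) := by
        ext <;> simp
      rw [h1, LinearMap.prodMap_apply, hy, map_zero, Prod.smul_mk, smul_zero]
  · have h1 : (Finset.univ : Finset (Fin (m + n))).val.map
        (fun k => Sum.elim x y (finSumFinEquiv.symm k)) =
        (Finset.univ : Finset (Fin m ⊕ Fin n)).val.map (Sum.elim x y) := by
      rw [← Finset.map_univ_equiv (finSumFinEquiv (m := m) (n := n)), Finset.map_val,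
        Multiset.map_map]
      apply Multiset.map_congr rfl
      intro q _
      change Sum.elim x y (finSumFinEquiv.symm (finSumFinEquiv q)) = _
      rw [Equiv.symm_apply_apply]
    rw [h1, ← Finset.univ_disjSum_univ, Finset.val_disjSum]
    rw [Multiset.disjSum, Multiset.map_add, Multiset.map_map, Multiset.map_map]
    rfl

theorem B2_conj {V W : Type} [AddCommGroup V] [Module ℂ V] [AddCommGroup W] [Module ℂ W]
    (φ : V ≃ₗ[ℂ] W) (A : V →ₗ[ℂ] V) (s : Multiset QZ) (h : Exps A s) :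
    Exps (φ.toLinearMap ∘ₗ A ∘ₗ φ.symm.toLinearMap) s := by
  obtain ⟨n, b, x, hx, rfl⟩ := h
  refine ⟨n, b.map φ, x, ?_, rfl⟩
  intro i
  simp only [Module.Basis.map_apply, LinearMap.comp_apply, LinearEquiv.coe_coe,
    LinearEquiv.symm_apply_apply, hx, map_smul]

open Classical in
theorem B2_of {N : ℕ} (hN : 0 < N) {V : Type} [AddCommGroup V] [Module ℂ V]
    (ϱ : Representation ℂ (SpecialLinearGroup (Fin 2) (ZMod N)) V) (h1 : ϱ (-1) = 1)
    {s t u : Multiset QZ} (hs : Exps (ϱ (mS N)) s) (ht : Exps (ϱ (mT N)) t)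
    (hu : Exps (ϱ (mU N)) u) : IsCong ((s + t + u).filter fun x => x ≠ 0) := by
  have hs' := hs
  obtain ⟨n, b, x, hx, rfl⟩ := hs'
  let φ : V ≃ₗ[ℂ] (Fin n → ℂ) := b.equivFun
  let ϱ' : Representation ℂ (SpecialLinearGroup (Fin 2) (ZMod N)) (Fin n → ℂ) :=
    { toFun := fun g => φ.toLinearMap ∘ₗ ϱ g ∘ₗ φ.symm.toLinearMap
      map_one' := by
        apply LinearMap.ext
        intro v
        simp
      map_mul' := by
        intro g h
        apply LinearMap.ext
        intro v
        simp }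
  refine ⟨N, n, ϱ', _, t, u, hN, ?_, B2_conj φ _ _ hs, B2_conj φ _ _ ht, B2_conj φ _ _ hu, rfl⟩
  change φ.toLinearMap ∘ₗ ϱ (-1) ∘ₗ φ.symm.toLinearMap = 1
  rw [h1]
  apply LinearMap.ext
  intro v
  simp

theorem B2_map_S {N M : ℕ} (h : N ∣ M) :
    SpecialLinearGroup.map (ZMod.castHom h (ZMod N)) (mS M) = mS N := by
  ext i j
  simp only [SpecialLinearGroup.map_apply_coe, RingHom.mapMatrix_apply, Matrix.map_apply, mS]
  fin_cases i <;> fin_cases j
  · exact map_zero (ZMod.castHom h (ZMod N))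
  · change ZMod.castHom h (ZMod N) (-1) = -1
    rw [map_neg, map_one]
  · exact map_one (ZMod.castHom h (ZMod N))
  · exact map_zero (ZMod.castHom h (ZMod N))

theorem B2_map_T {N M : ℕ} (h : N ∣ M) :
    SpecialLinearGroup.map (ZMod.castHom h (ZMod N)) (mT M) = mT N := by
  ext i j
  simp only [SpecialLinearGroup.map_apply_coe, RingHom.mapMatrix_apply, Matrix.map_apply, mT]
  fin_cases i <;> fin_cases j
  · exact map_one (ZMod.castHom h (ZMod N))
  · exact map_one (ZMod.castHom h (ZMod N))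
  · exact map_zero (ZMod.castHom h (ZMod N))
  · exact map_one (ZMod.castHom h (ZMod N))

theorem B2_map_U {N M : ℕ} (h : N ∣ M) :
    SpecialLinearGroup.map (ZMod.castHom h (ZMod N)) (mU M) = mU N := by
  rw [mU, mU, map_inv, map_mul, B2_map_S, B2_map_T]

theorem B2_map_neg {N M : ℕ} (h : N ∣ M) :
    SpecialLinearGroup.map (ZMod.castHom h (ZMod N))
      (-1 : SpecialLinearGroup (Fin 2) (ZMod M)) = -1 := by
  ext i j
  simp only [SpecialLinearGroup.map_apply_coe, SpecialLinearGroup.coe_neg,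
    RingHom.mapMatrix_apply, Matrix.map_apply, Matrix.neg_apply, map_neg]
  congr 1
  change ZMod.castHom h (ZMod N) ((1 : Matrix (Fin 2) (Fin 2) (ZMod M)) i j) =
    (1 : Matrix (Fin 2) (Fin 2) (ZMod N)) i j
  rw [Matrix.one_apply, Matrix.one_apply]
  by_cases hij : i = j
  · rw [if_pos hij, if_pos hij, map_one]
  · rw [if_neg hij, if_neg hij, map_zero]

theorem isCong_zero : IsCong 0 := by
  have h : ∀ A : (Fin 0 → ℂ) →ₗ[ℂ] (Fin 0 → ℂ), Exps A 0 := fun A =>
    ⟨0, Pi.basisFun ℂ (Fin 0), fun i => i.elim0, fun i => i.elim0, by simp⟩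
  refine ⟨1, 0, 1, 0, 0, 0, one_pos, ?_, h _, h _, h _, ?_⟩
  · rw [MonoidHom.one_apply]
  · simp

theorem isCong_add {c d : Multiset QZ} (hc : IsCong c) (hd : IsCong d) : IsCong (c + d) := by
  classical
  obtain ⟨N, n, ϱ, s, t, u, hN, h1, hs, ht, hu, rfl⟩ := hc
  obtain ⟨M, k, ϱ', s', t', u', hM, h1', hs', ht', hu', rfl⟩ := hd
  have dN : N ∣ N * M := Dvd.intro _ rfl
  have dM : M ∣ N * M := Dvd.intro_left _ rfl
  let τ : Representation ℂ (SpecialLinearGroup (Fin 2) (ZMod (N * M)))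
      ((Fin n → ℂ) × (Fin k → ℂ)) :=
    Representation.prod (MonoidHom.comp ϱ (SpecialLinearGroup.map (ZMod.castHom dN (ZMod N))))
      (MonoidHom.comp ϱ' (SpecialLinearGroup.map (ZMod.castHom dM (ZMod M))))
  have hτ : ∀ g, τ g = (ϱ (SpecialLinearGroup.map (ZMod.castHom dN (ZMod N)) g)).prodMap
      (ϱ' (SpecialLinearGroup.map (ZMod.castHom dM (ZMod M)) g)) := fun g => rfl
  have h := B2_of (s := s + s') (t := t + t') (u := u + u') (Nat.mul_pos hN hM) τ ?_ ?_ ?_ ?_
  · rw [← Multiset.filter_add]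
    have e : s + t + u + (s' + t' + u') = s + s' + (t + t') + (u + u') := by abel
    convert h using 2
  · rw [hτ, B2_map_neg, B2_map_neg, h1, h1']
    apply LinearMap.ext
    intro v
    simp
  · rw [hτ, B2_map_S, B2_map_S]
    exact B2_prod _ _ _ _ hs hs'
  · rw [hτ, B2_map_T, B2_map_T]
    exact B2_prod _ _ _ _ ht ht'
  · rw [hτ, B2_map_U, B2_map_U]
    exact B2_prod _ _ _ _ hu hu'

theorem B2_dual {N n : ℕ} (ϱ : Representation ℂ (SpecialLinearGroup (Fin 2) (ZMod N)) (Fin n → ℂ))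
    (g : SpecialLinearGroup (Fin 2) (ZMod N)) (s : Multiset QZ) (h : Exps (ϱ g) s) :
    Exps (ϱ.dual g) (s.map fun x => -x) := by
  classical
  obtain ⟨m, b, x, hx, rfl⟩ := h
  refine ⟨m, b.dualBasis, fun i => -x i, ?_, ?_⟩
  · intro i
    have hinv : ∀ j, ϱ g⁻¹ (b j) = ez (-x j) • b j := by
      intro j
      have h1 : ϱ g⁻¹ (ϱ g (b j)) = b j := by
        rw [← Module.End.mul_apply, ← map_mul, inv_mul_cancel, map_one, Module.End.one_apply]
      rw [hx, map_smul] at h1
      calc ϱ g⁻¹ (b j) = (ez (-x j) * ez (x j)) • ϱ g⁻¹ (b j) := by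
            rw [mul_comm, B2_ez_mul_neg, one_smul]
        _ = ez (-x j) • b j := by rw [mul_smul, h1]
    apply b.ext
    intro j
    rw [Representation.dual_apply]
    change (b.dualBasis i) (ϱ g⁻¹ (b j)) = ez (-x i) * (b.dualBasis i) (b j)
    rw [hinv, map_smul, smul_eq_mul, Module.Basis.dualBasis_apply_self]
    by_cases hij : j = i
    · rw [hij]
    · rw [if_neg hij, mul_zero, mul_zero]
  · rw [Multiset.map_map]
    rfl

theorem isCong_neg {c : Multiset QZ} (hc : IsCong c) : IsCong (c.map fun x => -x) := by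
  classical
  obtain ⟨N, n, ϱ, s, t, u, hN, h1, hs, ht, hu, rfl⟩ := hc
  have h := B2_of (s := s.map fun x => -x) (t := t.map fun x => -x) (u := u.map fun x => -x) hN
    ϱ.dual ?_ (B2_dual ϱ _ _ hs) (B2_dual ϱ _ _ ht) (B2_dual ϱ _ _ hu)
  · rw [← Multiset.map_add, ← Multiset.map_add, Multiset.filter_map] at h
    have e : ((fun x : QZ => x ≠ 0) ∘ fun x => -x) = fun x : QZ => x ≠ 0 := by
      funext x
      simp
    convert h using 2
    simp only [e]
  · apply LinearMap.ext
    intro f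
    rw [Representation.dual_apply]
    have h2 : (-1 : SpecialLinearGroup (Fin 2) (ZMod N))⁻¹ = -1 := by
      rw [inv_eq_iff_mul_eq_one]
      simp
    rw [h2, h1]
    rfl

theorem isCong_ne {c : Multiset QZ} (hc : IsCong c) : ∀ x ∈ c, x ≠ 0 := by
  obtain ⟨N, n, ϱ, s, t, u, hN, h1, hs, ht, hu, rfl⟩ := hc
  intro x hx
  exact (Multiset.mem_filter.1 hx).2

theorem isCong_sum {c : Multiset QZ} (hc : IsCong c) : c.sum = 0 := by
  classical
  obtain ⟨N, n, ϱ, s, t, u, hN, h1, hs, ht, hu, rfl⟩ := hc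
  have h2 : ∀ w : Multiset QZ, (w.filter fun x => x ≠ 0).sum = w.sum := by
    intro w
    induction w using Multiset.induction_on with
    | empty => simp
    | cons a w ih =>
      by_cases ha : a = 0
      · rw [Multiset.filter_cons_of_neg _ (by simpa using ha), ih, Multiset.sum_cons, ha, zero_add]
      · rw [Multiset.filter_cons_of_pos (p := fun x : QZ => x ≠ 0) _ ha, Multiset.sum_cons,
          Multiset.sum_cons, ih]
  have h3 : (s + t + u).sum = 0 := by
    apply B2_ez_eq_one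
    rw [Multiset.sum_add, Multiset.sum_add, B1_ez_add, B1_ez_add, ← B2_det _ _ hs,
      ← B2_det _ _ ht, ← B2_det _ _ hu, ← LinearMap.det_comp, ← LinearMap.det_comp]
    change LinearMap.det (ϱ (mS N) * ϱ (mT N) * ϱ (mU N)) = 1
    rw [← map_mul, ← map_mul, mU, mul_inv_cancel, map_one]
    exact LinearMap.det_id
  rw [← h3]
  convert h2 (s + t + u)

end Pool.Agent.helper76.MC
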